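import Pool.Agent.H69.LQ.Lib
import Pool.Agent.H69.LQ.Targets1
import Pool.Agent.H37.LQ.GR

/-!
# Row PX: the form of a difference
-/

set_option autoImplicit false

open MeasureTheory Metric Set
open scoped ENNReal
open Pool.Agent.H85.LK (E adm lam Ann)
open Pool.Agent.H69.LQ

namespace Pool.Agent.H30.LQ1

theorem PX_pd_cont {N : ℕ} {f : E N → ℝ} (hf : ContDiff ℝ (⊤ : ℕ∞) f) (j : Fin N) :
    Continuous (pd j f) :=
  (hf.continuous_fderiv (by simp)).clm_apply continuous_const

theorem PX_gd_cont {N : ℕ} {f g : E N → ℝ} (hf : ContDiff ℝ (⊤ : ℕ∞) f)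
    (hg : ContDiff ℝ (⊤ : ℕ∞) g) : Continuous (gd f g) := by
  unfold gd
  exact continuous_finsetSum _ fun j _ => (PX_pd_cont hf j).mul (PX_pd_cont hg j)

theorem PX_int {N : ℕ} {f : E N → ℝ} (hf : Continuous f) (a : ℝ) :
    IntegrableOn f (ball (0 : E N) a) :=
  (hf.continuousOn.integrableOn_compact (isCompact_closedBall (0 : E N) a)).mono_set
    ball_subset_closedBall

theorem PX_norm {N : ℕ} (f : E N → ℝ) (x : E N) : ‖fderiv ℝ f x‖ ^ 2 = gd f f x := by
  rw [Pool.Agent.H37.LQ.GR_norm]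
  unfold gd pd
  exact Finset.sum_congr rfl fun j _ => sq _

theorem pf_PX : T_PX := by
  intro N L μ a r w ζ _hN hr hra hw hζ hz
  have hwd : Differentiable ℝ w := hw.differentiable (by simp)
  have hζd : Differentiable ℝ ζ := hζ.differentiable (by simp)
  have hpd : ∀ j x, pd j (fun x => w x - ζ x) x = pd j w x - pd j ζ x := by
    intro j x
    unfold pd
    rw [fderiv_fun_sub (hwd x) (hζd x)]
    rfl
  have hgd : ∀ x, gd (fun x => w x - ζ x) (fun x => w x - ζ x) x =
      gd w w x - 2 * gd w ζ x + gd ζ ζ x := by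
    intro x
    unfold gd
    rw [Finset.mul_sum, ← Finset.sum_sub_distrib, ← Finset.sum_add_distrib]
    refine Finset.sum_congr rfl fun j _ => ?_
    rw [hpd]
    ring
  have hζ0 : ∀ x : E N, r < ‖x‖ → ∀ j, pd j ζ x = 0 := by
    intro x hx j
    have h1 : ζ =ᶠ[nhds x] fun _ => 0 := by
      have h2 : {y : E N | r < ‖y‖} ∈ nhds x :=
        (isOpen_lt continuous_const continuous_norm).mem_nhds hx
      filter_upwards [h2] with y hy
      exact hz y (le_of_lt hy)
    unfold pd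
    rw [h1.fderiv_eq, fderiv_fun_const]
    rfl
  have hout : ∀ x : E N, x ∉ ball (0 : E N) a → r < ‖x‖ := by
    intro x hx
    rw [mem_ball_zero_iff, not_lt] at hx
    linarith
  have e1 : ∫ x in ball (0 : E N) a, gd w ζ x = ∫ x, gd w ζ x := by
    refine setIntegral_eq_integral_of_forall_compl_eq_zero fun x hx => ?_
    unfold gd
    refine Finset.sum_eq_zero fun j _ => ?_
    rw [hζ0 x (hout x hx) j, mul_zero]
  have e2 : ∫ x in ball (0 : E N) a, gd ζ ζ x = ∫ x, gd ζ ζ x := by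
    refine setIntegral_eq_integral_of_forall_compl_eq_zero fun x hx => ?_
    unfold gd
    refine Finset.sum_eq_zero fun j _ => ?_
    rw [hζ0 x (hout x hx) j, mul_zero]
  have e3 : ∫ x in ball (0 : E N) a, w x * ζ x = ∫ x, w x * ζ x := by
    refine setIntegral_eq_integral_of_forall_compl_eq_zero fun x hx => ?_
    rw [hz x (hout x hx).le, mul_zero]
  have e4 : ∫ x in ball (0 : E N) a, ζ x ^ 2 = ∫ x, ζ x ^ 2 := by
    refine setIntegral_eq_integral_of_forall_compl_eq_zero fun x hx => ?_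
    rw [hz x (hout x hx).le]
    norm_num
  have hrs : rs (fun x => w x - ζ x) a = rs w a := by
    funext θ
    change w (a • (θ : E N)) - ζ (a • (θ : E N)) = w (a • (θ : E N))
    rw [hz (a • (θ : E N)) (by
      rw [norm_smul_sp, abs_of_pos (hr.trans hra)]
      exact hra.le), sub_zero]
  have i1 : IntegrableOn (fun x => ‖fderiv ℝ w x‖ ^ 2 - μ ^ 2 * L * w x ^ 2)
      (ball (0 : E N) a) := by
    refine PX_int ?_ a
    exact ((hw.continuous_fderiv (by simp)).norm.pow 2).sub
      (continuous_const.mul (hw.continuous.pow 2))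
  have i2 : IntegrableOn (fun x => gd w ζ x) (ball (0 : E N) a) := PX_int (PX_gd_cont hw hζ) a
  have i3 : IntegrableOn (fun x => w x * ζ x) (ball (0 : E N) a) :=
    PX_int (hw.continuous.mul hζ.continuous) a
  have i4 : IntegrableOn (fun x => gd ζ ζ x) (ball (0 : E N) a) := PX_int (PX_gd_cont hζ hζ) a
  have i5 : IntegrableOn (fun x => ζ x ^ 2) (ball (0 : E N) a) :=
    PX_int (hζ.continuous.pow 2) a
  have e5 : (fun x => ‖fderiv ℝ (fun x => w x - ζ x) x‖ ^ 2 - μ ^ 2 * L * (w x - ζ x) ^ 2) =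
      fun x => ((‖fderiv ℝ w x‖ ^ 2 - μ ^ 2 * L * w x ^ 2) -
        2 * (gd w ζ x - μ ^ 2 * L * (w x * ζ x))) + (gd ζ ζ x - μ ^ 2 * L * ζ x ^ 2) := by
    funext x
    rw [PX_norm, hgd, PX_norm]
    ring
  have j2 : IntegrableOn (fun x => gd w ζ x - μ ^ 2 * L * (w x * ζ x)) (ball (0 : E N) a) :=
    i2.sub (i3.const_mul _)
  have j3 : IntegrableOn (fun x => gd ζ ζ x - μ ^ 2 * L * ζ x ^ 2) (ball (0 : E N) a) :=
    i4.sub (i5.const_mul _)
  have j4 : IntegrableOn (fun x => (‖fderiv ℝ w x‖ ^ 2 - μ ^ 2 * L * w x ^ 2) -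
        2 * (gd w ζ x - μ ^ 2 * L * (w x * ζ x))) (ball (0 : E N) a) :=
    i1.sub (j2.const_mul 2)
  unfold PP
  rw [hrs, e5, integral_add j4 j3, integral_sub i1 (j2.const_mul 2), integral_const_mul,
    integral_sub i2 (i3.const_mul _), integral_sub i4 (i5.const_mul _), integral_const_mul,
    integral_const_mul, e1, e2, e3, e4]
  ring

end Pool.Agent.H30.LQ1
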