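import Pool.Agent.H69.LQ.Lib
import Pool.Agent.H69.LQ.Targets1

/-!
# Row VD: holes inside the unit ball and the first exit
-/

set_option autoImplicit false

open MeasureTheory Metric Set
open scoped ENNReal
open Pool.Agent.H85.LK (E adm lam Ann)
open Pool.Agent.H69.LQ

namespace Pool.Agent.H30.LQ1

theorem pf_VD (hMP : T_MP) : T_VD := by
  intro N Ω a b ρ R hN ha hab hρ1 _hρb hρ0 hΩ hR
  obtain ⟨_, har, harN, hpol⟩ := hMP N hN
  have hN0 : (0 : ℝ) < N := by
    have : 0 < N := by omega
    exact_mod_cast this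
  obtain ⟨H, hH⟩ : ∃ H : Set (E N), H = ball (0 : E N) ρ \ Ω := ⟨_, rfl⟩
  have hHm : MeasurableSet H := by
    rw [hH]
    exact measurableSet_ball.diff hΩ.measurableSet
  have hHf : volume H ≠ ⊤ := by
    rw [hH]
    exact ne_top_of_le_ne_top measure_ball_lt_top.ne (measure_mono sdiff_subset)
  have hgi : Integrable (H.indicator fun _ => (1 : ℝ)) := by
    rw [integrable_indicator_iff hHm]
    exact integrableOn_const hHf
  obtain ⟨_, hint, hval⟩ := hpol _ hgi
  have hvol : ∫ x, H.indicator (fun _ => (1 : ℝ)) x = volume.real H := by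
    rw [integral_indicator hHm, setIntegral_const, smul_eq_mul, mul_one]
  -- the inner integral
  have hin : ∀ θ : Sp N, (∫ r in Ioi (0 : ℝ), r ^ (N - 1) *
      H.indicator (fun _ => (1 : ℝ)) (r • (θ : E N))) ≤ if R θ < ρ then 1 / (N : ℝ) else 0 := by
    intro θ
    have hmem : ∀ r : ℝ, 0 < r → r • (θ : E N) ∈ H → r < ρ ∧ R θ ≤ r := by
      intro r hr hrH
      rw [hH] at hrH
      have h1 : ‖r • (θ : E N)‖ < ρ := mem_ball_zero_iff.1 hrH.1
      rw [norm_smul_sp, abs_of_pos hr] at h1
      refine ⟨h1, ?_⟩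
      by_contra h2
      exact hrH.2 (hR.ins θ r hr.le (not_le.1 h2))
    split_ifs with hlt
    · have hi : IntegrableOn (fun r : ℝ => (Ioo 0 ρ).indicator (fun r => r ^ (N - 1)) r)
          (Ioi 0) := by
        refine Integrable.integrableOn ?_
        rw [integrable_indicator_iff measurableSet_Ioo]
        exact ((continuous_pow (N - 1)).continuousOn.integrableOn_compact
          (isCompact_Icc (a := (0 : ℝ)) (b := ρ))).mono_set Ioo_subset_Icc_self
      have h1 : (∫ r in Ioi (0 : ℝ), r ^ (N - 1) *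
          H.indicator (fun _ => (1 : ℝ)) (r • (θ : E N))) ≤
          ∫ r in Ioi (0 : ℝ), (Ioo 0 ρ).indicator (fun r => r ^ (N - 1)) r := by
        refine integral_mono_of_nonneg ?_ hi ?_
        · refine (ae_restrict_iff' measurableSet_Ioi).2 (ae_of_all _ fun r hr => ?_)
          have hr0 : (0 : ℝ) < r := hr
          change 0 ≤ r ^ (N - 1) * H.indicator (fun _ => (1 : ℝ)) (r • (θ : E N))
          exact mul_nonneg (by positivity) (indicator_nonneg (fun _ _ => zero_le_one) _)
        · refine (ae_restrict_iff' measurableSet_Ioi).2 (ae_of_all _ fun r hr => ?_)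
          have hr0 : (0 : ℝ) < r := hr
          change r ^ (N - 1) * H.indicator (fun _ => (1 : ℝ)) (r • (θ : E N)) ≤
            (Ioo 0 ρ).indicator (fun r => r ^ (N - 1)) r
          by_cases hrH : r • (θ : E N) ∈ H
          · have h9 : r ∈ Ioo 0 ρ := ⟨hr0, (hmem r hr0 hrH).1⟩
            rw [indicator_of_mem hrH, mul_one, indicator_of_mem h9]
          · rw [indicator_of_notMem hrH, mul_zero]
            exact indicator_nonneg (fun x hx => pow_nonneg (le_of_lt hx.1) _) _
      refine h1.trans ?_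
      have h2 : (Ioi (0 : ℝ) ∩ Ioo 0 ρ) = Ioo 0 ρ :=
        inter_eq_right.2 fun x hx => hx.1
      rw [setIntegral_indicator measurableSet_Ioo, h2, ← integral_Ioc_eq_integral_Ioo,
        ← intervalIntegral.integral_of_le hρ0.le, integral_pow]
      have h3 : N - 1 + 1 = N := by omega
      have h4 : ((N - 1 : ℕ) : ℝ) + 1 = N := by exact_mod_cast h3
      rw [h3, h4]
      refine div_le_div_of_nonneg_right ?_ hN0.le
      have h5 : ρ ^ N ≤ 1 := pow_le_one₀ hρ0.le hρ1
      have h6 : (0 : ℝ) ^ N = 0 := zero_pow (by omega)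
      linarith
    · have h1 : (∫ r in Ioi (0 : ℝ), r ^ (N - 1) *
          H.indicator (fun _ => (1 : ℝ)) (r • (θ : E N))) = 0 := by
        refine setIntegral_eq_zero_of_forall_eq_zero fun r hr => ?_
        have hr0 : (0 : ℝ) < r := hr
        by_cases hrH : r • (θ : E N) ∈ H
        · obtain ⟨h2, h3⟩ := hmem r hr0 hrH
          exact absurd (lt_of_le_of_lt h3 h2) hlt
        · rw [indicator_of_notMem hrH, mul_zero]
      exact h1.le
  have hpt : ∀ θ : Sp N, (1 - ρ) ^ 2 * (∫ r in Ioi (0 : ℝ), r ^ (N - 1) *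
      H.indicator (fun _ => (1 : ℝ)) (r • (θ : E N))) ≤ 1 / (N : ℝ) * (R θ - 1) ^ 2 := by
    intro θ
    have h1 := mul_le_mul_of_nonneg_left (hin θ) (sq_nonneg (1 - ρ))
    refine h1.trans ?_
    split_ifs with hlt
    · have h2 : (1 - ρ) ^ 2 ≤ (R θ - 1) ^ 2 := by
        have h3 : (R θ - 1) ^ 2 = (1 - R θ) ^ 2 := by ring
        rw [h3]
        exact pow_le_pow_left₀ (by linarith) (by linarith) 2
      rw [mul_comm]
      exact mul_le_mul_of_nonneg_left h2 (by positivity)
    · rw [mul_zero]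
      positivity
  have hBM : BM fun θ : Sp N => (R θ - 1) ^ 2 := by
    have h1 : BM R := by
      refine ⟨hR.meas, b, fun θ => ?_⟩
      rw [abs_of_pos (ha.trans (hR.lo θ))]
      exact hR.hi θ
    exact (h1.sub (BM_const 1)).pow 2
  have hav : av (fun θ : Sp N => (1 - ρ) ^ 2 * (∫ r in Ioi (0 : ℝ), r ^ (N - 1) *
      H.indicator (fun _ => (1 : ℝ)) (r • (θ : E N)))) ≤
      av fun θ : Sp N => 1 / (N : ℝ) * (R θ - 1) ^ 2 :=
    integral_mono (hint.const_mul _) ((hBM.integrable).const_mul _) hpt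
  rw [av_const_mul, av_const_mul] at hav
  rw [hvol] at hval
  rw [← hH, hval]
  have h7 := mul_le_mul_of_nonneg_left hav har.le
  have h8 : ar N * (1 / (N : ℝ) * av fun θ : Sp N => (R θ - 1) ^ 2) =
      volume.real (ball (0 : E N) 1) * av fun θ : Sp N => (R θ - 1) ^ 2 := by
    rw [harN]
    field_simp
  rw [h8] at h7
  refine le_trans (le_of_eq ?_) h7
  ring

end Pool.Agent.H30.LQ1
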